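import Pool.Agent.Helper74.CO.Goals2

/-!
# CO packet DW2
-/

set_option autoImplicit false

namespace Pool.Agent.Helper62.CO

open Finset Pool.Agent.Helper74.CO

/-- a geometric progression of `h ≥ 3` nonzero integers, bounded by `h`, with different first and
third term does not exist -/
theorem no_gp (h : ℕ) (hh : 3 ≤ h) (y : ℕ → ℤ) (h0 : ∀ i < h, y i ≠ 0)
    (hb : ∀ i < h, |y i| ≤ h) (hr : ∀ i, i + 2 < h → y (i + 1) ^ 2 = y i * y (i + 2))
    (hd : y 0 ≠ y 2) : False := by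
  have hrat : ∀ i, i + 1 < h → y (i + 1) * y 0 = y i * y 1 := by
    intro i
    induction i with
    | zero => intro _; simp; ring
    | succ i ih =>
      intro hi
      have h1 := ih (by omega)
      have h2 := hr i (by omega)
      have h3 : y i ≠ 0 := h0 i (by omega)
      apply mul_left_cancel₀ h3
      calc y i * (y (i + 1 + 1) * y 0) = (y i * y (i + 2)) * y 0 := by ring_nf
        _ = y (i + 1) ^ 2 * y 0 := by rw [h2]
        _ = y (i + 1) * (y (i + 1) * y 0) := by ring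
        _ = y (i + 1) * (y i * y 1) := by rw [h1]
        _ = y i * (y (i + 1) * y 1) := by ring
  have hy0 : y 0 ≠ 0 := h0 0 (by omega)
  have hy1 : y 1 ≠ 0 := h0 1 (by omega)
  obtain ⟨v, u, hcop, hv, hu⟩ : ∃ v u : ℤ, IsCoprime v u ∧ y 0 = Int.gcd (y 0) (y 1) * v ∧
      y 1 = Int.gcd (y 0) (y 1) * u := by
    have hg : 0 < Int.gcd (y 0) (y 1) := Int.gcd_pos_of_ne_zero_left _ hy0
    refine ⟨y 0 / Int.gcd (y 0) (y 1), y 1 / Int.gcd (y 0) (y 1), ?_, ?_, ?_⟩
    · rw [Int.isCoprime_iff_gcd_eq_one]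
      exact Int.gcd_ediv_gcd_ediv_gcd hg
    · exact (Int.mul_ediv_cancel' (Int.gcd_dvd_left _ _)).symm
    · exact (Int.mul_ediv_cancel' (Int.gcd_dvd_right _ _)).symm
  have hg0 : ((Int.gcd (y 0) (y 1) : ℕ) : ℤ) ≠ 0 := by
    intro hc
    rw [hc] at hv
    apply hy0
    rw [hv]; ring
  generalize ((Int.gcd (y 0) (y 1) : ℕ) : ℤ) = d at hv hu hg0
  have hv0 : v ≠ 0 := by
    rintro rfl
    exact hy0 (by rw [hv]; ring)
  have hu0 : u ≠ 0 := by
    rintro rfl
    exact hy1 (by rw [hu]; ring)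
  have hstep : ∀ i, i + 1 < h → y (i + 1) * v = y i * u := by
    intro i hi
    have h1 := hrat i hi
    apply mul_left_cancel₀ hg0
    calc d * (y (i + 1) * v) = y (i + 1) * (d * v) := by ring
      _ = y (i + 1) * y 0 := by rw [← hv]
      _ = y i * y 1 := h1
      _ = d * (y i * u) := by rw [hu]; ring
  have hpow : ∀ i, i < h → y i * v ^ i = y 0 * u ^ i := by
    intro i
    induction i with
    | zero => intro _; simp
    | succ i ih =>
      intro hi
      have h1 := ih (by omega)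
      have h2 := hstep i (by omega)
      calc y (i + 1) * v ^ (i + 1) = (y (i + 1) * v) * v ^ i := by ring
        _ = (y i * v ^ i) * u := by rw [h2]; ring
        _ = y 0 * u ^ (i + 1) := by rw [h1]; ring
  obtain ⟨k, rfl⟩ : ∃ k, h = k + 1 := ⟨h - 1, by omega⟩
  have hlast := hpow k (by omega)
  have hdv : v ^ k ∣ y 0 := by
    have h1 : v ^ k ∣ y 0 * u ^ k := ⟨y k, by rw [← hlast]; ring⟩
    exact (IsCoprime.pow hcop).dvd_of_dvd_mul_right h1
  obtain ⟨w, hw⟩ := hdv
  have hw0 : w ≠ 0 := by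
    rintro rfl
    exact hy0 (by rw [hw]; ring)
  have hyk : y k = w * u ^ k := by
    have hvk : v ^ k ≠ 0 := pow_ne_zero _ hv0
    apply mul_right_cancel₀ hvk
    rw [hlast, hw]; ring
  have hkey : (k : ℤ) + 1 < 2 ^ k := by
    have : ∀ m : ℕ, ((m + 2 : ℕ) : ℤ) + 1 < 2 ^ (m + 2) := by
      intro m
      induction m with
      | zero => norm_num
      | succ m ih =>
        push_cast at ih ⊢
        have : (2 : ℤ) ^ (m + 1 + 2) = 2 * 2 ^ (m + 2) := by ring
        rw [this]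
        have h2 : (0 : ℤ) ≤ m := by positivity
        linarith
    have h3 := this (k - 2)
    have h4 : k - 2 + 2 = k := by omega
    rw [h4] at h3
    exact h3
  have hw1 : 1 ≤ |w| := Int.one_le_abs hw0
  have hsmall : ∀ x : ℤ, x ≠ 0 → |w * x ^ k| ≤ ((k + 1 : ℕ) : ℤ) → |x| = 1 := by
    intro x hx hle
    by_contra hne
    have h1 : 1 ≤ |x| := Int.one_le_abs hx
    have h2 : 2 ≤ |x| := by omega
    have h3 : (2 : ℤ) ^ k ≤ |x| ^ k := pow_le_pow_left₀ (by norm_num) h2 k
    rw [abs_mul, abs_pow] at hle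
    have h4 : 1 * |x| ^ k ≤ |w| * |x| ^ k := mul_le_mul_of_nonneg_right hw1 (by positivity)
    push_cast at hle
    linarith
  have hv1 : |v| = 1 := by
    apply hsmall v hv0
    rw [mul_comm, ← hw]
    exact hb 0 (by omega)
  have hu1 : |u| = 1 := by
    apply hsmall u hu0
    rw [← hyk]
    exact hb k (by omega)
  have hv2 : v ^ 2 = 1 := by rw [← sq_abs, hv1]; norm_num
  have hu2 : u ^ 2 = 1 := by rw [← sq_abs, hu1]; norm_num
  have h2 := hpow 2 (by omega)
  rw [hv2, hu2] at h2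
  exact hd (by linarith)

/-- **DW2**. -/
theorem t_DW2 (hD : DOWNW) (hI : IND) : DW2 := by
  classical
  obtain ⟨C', N, δ, hδ, hdown⟩ := hD 0
  refine ⟨max N (4 * (C' + 1) ^ 2 + 5), δ, hδ, ?_⟩
  intro p hp g c hpN hg hc n f s t hn hn2 hcard
  have hpN1 : N ≤ p := le_trans (le_max_left _ _) hpN
  have hpN2 : 4 * (C' + 1) ^ 2 + 5 ≤ p := le_trans (le_max_right _ _) hpN
  have hC := hdown p g c hpN1 hg hc n f s t hn hn2 hcard
  by_contra hcon
  push Not at hcon
  obtain ⟨h, hh⟩ : ∃ h, p = n + h + 1 := ⟨p - 1 - n, by omega⟩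
  have hh3 : 3 ≤ h := by omega
  have hhC : h ≤ C' := by omega
  have hcardp : Fintype.card (ZMod p) = p := ZMod.card p
  obtain ⟨hg0, hg1, -, hgeq⟩ := hI (ZMod p) g hg (by rw [hcardp]; omega)
  rw [hcardp] at hgeq
  -- the dots
  have hall : ∀ i : Fin n, c * g ^ ((i : ℤ) + s) = (((f i : Fin n) : ℤ) + t : ℤ) := by
    intro i
    have h1 : (dots f s t).filter (· ∉ Wt p g c) = ∅ := by
      rw [← Finset.card_eq_zero]
      exact Nat.le_zero.1 hcard
    have h2 := (Finset.filter_eq_empty_iff.1 h1) (x := ((i : ℤ) + s, ((f i : Fin n) : ℤ) + t))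
      (by unfold dots; exact Finset.mem_image_of_mem _ (Finset.mem_univ _))
    rw [not_not] at h2
    exact h2
  have hrow : ∀ r : ℤ, 0 ≤ r → r < n → ∃ j : ℤ, 0 ≤ j ∧ j < n ∧
      ((t + r : ℤ) : ZMod p) = c * g ^ (j + s) := by
    intro r hr0 hrn
    obtain ⟨r', rfl⟩ := Int.eq_ofNat_of_zero_le hr0
    have hrn' : r' < n := by exact_mod_cast hrn
    refine ⟨((f.symm ⟨r', hrn'⟩ : Fin n) : ℤ), by positivity, by exact_mod_cast (Fin.is_lt _), ?_⟩
    rw [hall]
    rw [Equiv.apply_symm_apply]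
    push_cast
    ring
  have hpos : (0 : ℤ) < p := by exact_mod_cast hp.out.pos
  have hnz : ∀ k : ℤ, c * g ^ k ≠ 0 := fun k => mul_ne_zero hc (zpow_ne_zero _ hg0)
  -- the place of the multiple of `p`
  obtain ⟨a, ha0, hah, hap⟩ : ∃ a : ℤ, 0 ≤ a ∧ a ≤ h ∧ ((t + n + a : ℤ) : ZMod p) = 0 := by
    have hm0 := Int.emod_nonneg (-(t + n)) hpos.ne'
    have hm1 := Int.emod_lt_of_pos (-(t + n)) hpos
    have hm2 : ((t + n + (-(t + n)) % p : ℤ) : ZMod p) = 0 := by
      rw [ZMod.intCast_zmod_eq_zero_iff_dvd]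
      have := Int.emod_add_mul_ediv (-(t + n)) p
      refine ⟨-((-(t + n)) / p), ?_⟩
      linarith
    generalize (-(t + n)) % (p : ℤ) = a0 at hm0 hm1 hm2
    by_cases hle : a0 ≤ h
    · exact ⟨a0, hm0, hle, hm2⟩
    · exfalso
      push Not at hle
      have hpz : (p : ℤ) = n + h + 1 := by exact_mod_cast hh
      obtain ⟨j, -, -, hj⟩ := hrow (n + a0 - p) (by omega) (by omega)
      apply hnz (j + s)
      rw [← hj]
      have : (t + (n + a0 - p) : ℤ) = (t + n + a0) - p := by ring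
      rw [this, Int.cast_sub, hm2]
      simp
  -- the missing elements
  have hy : ∀ i : ℕ, i < h → ∃ y : ℤ, y ≠ 0 ∧ |y| ≤ h ∧ (y : ZMod p) = c * g ^ (s + n + i) := by
    intro i hi
    set z : ZMod p := c * g ^ (s + n + i) with hz
    have hm0 := Int.emod_nonneg ((z.val : ℤ) - t) hpos.ne'
    have hm1 := Int.emod_lt_of_pos ((z.val : ℤ) - t) hpos
    have hm2 : ((t + ((z.val : ℤ) - t) % p : ℤ) : ZMod p) = z := by
      have h1 : (((z.val : ℤ) - t) % (p : ℤ)) = ((z.val : ℤ) - t) - p * (((z.val : ℤ) - t) / p) := by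
        have := Int.emod_add_mul_ediv ((z.val : ℤ) - t) p
        linarith
      rw [h1]
      push_cast
      simp
    generalize ((z.val : ℤ) - t) % (p : ℤ) = j at hm0 hm1 hm2
    have hpz : (p : ℤ) = n + h + 1 := by exact_mod_cast hh
    have hjn : (n : ℤ) ≤ j := by
      by_contra hlt
      push Not at hlt
      obtain ⟨j', hj0, hj1, hj2⟩ := hrow j hm0 hlt
      rw [hm2, hz] at hj2
      have h3 := mul_left_cancel₀ hc hj2
      rw [hgeq] at h3
      have h4 : s + n + (i : ℤ) - (j' + s) = n + i - j' := by ring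
      rw [h4] at h3
      have h5 := Int.le_of_dvd (by omega) h3
      omega
    have hy1 : ((j - n - a : ℤ) : ZMod p) = z := by
      have h1 : (j - n - a : ℤ) = (t + j) - (t + n + a) := by ring
      rw [h1, Int.cast_sub, hap, hm2]
      ring
    refine ⟨j - n - a, ?_, ?_, hy1⟩
    · intro h0
      rw [h0] at hy1
      exact hnz (s + n + i) (by rw [← hz, ← hy1]; simp)
    · rw [abs_le]
      constructor <;> omega
  choose! y hy0 hyb hyz using hy
  apply no_gp h hh3 y hy0 hyb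
  · intro i hi
    have h1 : ((y (i + 1) ^ 2 - y i * y (i + 2) : ℤ) : ZMod p) = 0 := by
      push_cast
      rw [hyz (i + 1) (by omega), hyz i (by omega), hyz (i + 2) (by omega)]
      have e1 : (s + n + ((i + 1 : ℕ) : ℤ)) = (s + n + (i : ℤ)) + 1 := by push_cast; ring
      have e2 : (s + n + ((i + 2 : ℕ) : ℤ)) = (s + n + (i : ℤ)) + 1 + 1 := by push_cast; ring
      rw [e1, e2, zpow_add_one₀ hg0, zpow_add_one₀ hg0, zpow_add_one₀ hg0]
      ring
    rw [ZMod.intCast_zmod_eq_zero_iff_dvd] at h1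
    have h2 : |y (i + 1) ^ 2 - y i * y (i + 2)| < p := by
      have a0 := hyb i (by omega)
      have a1 := hyb (i + 1) (by omega)
      have a2 := hyb (i + 2) (by omega)
      have hCz : (h : ℤ) ≤ C' := by exact_mod_cast hhC
      have hpz : (4 * ((C' : ℤ) + 1) ^ 2 + 5) ≤ p := by exact_mod_cast hpN2
      have b1 : |y (i + 1) ^ 2| ≤ (h : ℤ) * h := by
        rw [abs_pow, sq]
        exact mul_le_mul a1 a1 (abs_nonneg _) (by positivity)
      have b2 : |y i * y (i + 2)| ≤ (h : ℤ) * h := by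
        rw [abs_mul]
        exact mul_le_mul a0 a2 (abs_nonneg _) (by positivity)
      have b3 : |y (i + 1) ^ 2 - y i * y (i + 2)| ≤ |y (i + 1) ^ 2| + |y i * y (i + 2)| :=
        abs_sub _ _
      have b4 : (h : ℤ) * h ≤ C' * C' := mul_le_mul hCz hCz (by positivity) (by positivity)
      have b5 : (0 : ℤ) ≤ C' := by positivity
      nlinarith
    have h3 := Int.eq_zero_of_abs_lt_dvd h1 h2
    linarith
  · intro heq
    have h1 := hyz 0 (by omega)
    have h2 := hyz 2 (by omega)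
    rw [heq, h2] at h1
    have h3 := mul_left_cancel₀ hc h1
    rw [hgeq] at h3
    have h4 : s + n + ((2 : ℕ) : ℤ) - (s + n + ((0 : ℕ) : ℤ)) = 2 := by push_cast; ring
    rw [h4] at h3
    have h5 := Int.le_of_dvd (by norm_num) h3
    have hpz : (p : ℤ) = n + h + 1 := by exact_mod_cast hh
    omega

end Pool.Agent.Helper62.CO
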